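import Pool.Agent.N266.TI.Fin

/-!
# The heat dispersion with a layer of constant thickness has no minimiser at fixed volume

`D ⊂ ℝⁿ` is bounded, open and connected, `Ω = D + δB`, and `I(D) = disp β δ D` is the infimum of
`∫_Ω |∇φ|² + β ∫_{∂^*Ω} φ² dH^{n-1}` over `φ ∈ C_c^1(ℝⁿ)` with `φ ≥ 1` on `closure D`. If `n ≥ 3` and
`β δ ≥ C(n)`, then no `D` minimises `I` among the admissible sets of the same volume, whatever the
volume is.

The proof. In dimension at least three a finite union of segments has capacity zero. So thin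
tentacles can be attached to `D` at no cost, and the insulating layer becomes as large as we please
(a final dilation restores the volume): there are `D'` of the same volume with `I(D')` arbitrarily
close to the capacity `cap (closure D)` of `closure D` in the whole space. On the other hand
`I(D) > cap (closure D)` for every `D`: let `u` be the capacitary potential (in the proof: a
mollified almost minimiser), which satisfies `|∇u| ≤ (C/δ) u` at distance at least `δ` from `D`, and
let `u' = u - ε`, so that still `|∇u'| ≤ β u'` on `∂Ω`. Picone's identity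
`|∇φ|² ≥ div (φ² ∇u'/u') + φ² (-Δu')/u'` and the Gauss–Green formula give
`∫_Ω |∇φ|² + β ∫_{∂^*Ω} φ² ≥ ∫ φ² (-Δu)/(u - ε) ≥ cap / (1 - ε)`.

Co-authors of the proof (one or more files each): helpers 833, 596, 886, 81, 487, 622, 478, 814,
736, 169, 255, 186, 383, 519, 628.
-/

set_option autoImplicit false

namespace Pool.Agent.Results.MP_ecdc1b_an.NoMinimiser

open MeasureTheory Metric Set
open scoped ENNReal Pointwise

/-- `ℝⁿ` with the Euclidean norm. -/
abbrev E (n : ℕ) := EuclideanSpace ℝ (Fin n)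

/-- The unit vectors. -/
noncomputable abbrev e {n : ℕ} (i : Fin n) : E n := EuclideanSpace.single i (1 : ℝ)

/-- The gradient. -/
noncomputable def grad {n : ℕ} (φ : E n → ℝ) (x : E n) : E n :=
  WithLp.toLp 2 (fun i => fderiv ℝ φ x (e i))

/-- The divergence. -/
noncomputable def div {n : ℕ} (X : E n → E n) (x : E n) : ℝ := ∑ i, (fderiv ℝ X x (e i)) i

/-- `∫_{∂^*Ω} w dH^{n-1}`, the integral of `w` with respect to the perimeter measure `|D 1_Ω|` (by
De Giorgi's theorem the restriction of `H^{n-1}` to the reduced boundary `∂^*Ω`): the supremum of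
`∫_Ω div X` over the fields `X ∈ C_c^1(ℝⁿ; ℝⁿ)` with `|X| ≤ w`. -/
noncomputable def bdryIntegral {n : ℕ} (Ω : Set (E n)) (w : E n → ℝ) : ℝ≥0∞ :=
  ⨆ (X : E n → E n) (_ : ContDiff ℝ 1 X ∧ HasCompactSupport X ∧ ∀ x, ‖X x‖ ≤ w x),
    ENNReal.ofReal (∫ x in Ω, div X x)

/-- `∫_Ω |∇φ|² + β ∫_{∂^*Ω} φ² dH^{n-1}`. -/
noncomputable def energy {n : ℕ} (β : ℝ) (Ω : Set (E n)) (φ : E n → ℝ) : ℝ≥0∞ :=
  ENNReal.ofReal (∫ x in Ω, ‖grad φ x‖ ^ 2) +
    ENNReal.ofReal β * bdryIntegral Ω (fun x => φ x ^ 2)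

/-- `φ ∈ C_c^1(ℝⁿ)` and `φ ≥ 1` on `K`. -/
def IsTest {n : ℕ} (K : Set (E n)) (φ : E n → ℝ) : Prop :=
  ContDiff ℝ 1 φ ∧ HasCompactSupport φ ∧ ∀ x ∈ K, 1 ≤ φ x

/-- The heat dispersion `I_{β,δ}(D)`, with `Ω = D + δB`. -/
noncomputable def disp {n : ℕ} (β δ : ℝ) (D : Set (E n)) : ℝ≥0∞ :=
  ⨅ (φ : E n → ℝ) (_ : IsTest (closure D) φ), energy β (D + ball (0 : E n) δ) φ

/-- Admissible sets: bounded, open, connected. -/
def IsAdmissible {n : ℕ} (D : Set (E n)) : Prop :=
  Bornology.IsBounded D ∧ IsOpen D ∧ IsConnected D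

/-- The capacity of `K`. -/
noncomputable def cap {n : ℕ} (K : Set (E n)) : ℝ :=
  sInf ((fun φ : E n → ℝ => ∫ x, ‖grad φ x‖ ^ 2) '' {φ | IsTest K φ})

/-- **No minimiser.** Let `n ≥ 3` and `β δ ≥ C(n)`. For every admissible `D` the dispersion
`I_{β,δ}(D)` is strictly larger than the capacity of `closure D`, and there are admissible sets `D'`
with `|D'| = |D|` and `I_{β,δ}(D')` arbitrarily close to this capacity (or smaller). Hence for every
`m > 0` no admissible set of measure `m` minimises `I_{β,δ}` among the admissible sets of measure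
`m`. -/
theorem result (n : ℕ) (hn : 3 ≤ n) :
    ∃ C : ℝ, 0 < C ∧ ∀ β δ : ℝ, 0 < β → 0 < δ → C ≤ β * δ →
      (∀ D : Set (E n), IsAdmissible D →
        ENNReal.ofReal (cap (closure D)) < disp β δ D ∧
        ∀ ε : ℝ, 0 < ε → ∃ D' : Set (E n), IsAdmissible D' ∧ volume D' = volume D ∧
          disp β δ D' ≤ ENNReal.ofReal (cap (closure D) + ε)) ∧
      ∀ m : ℝ, 0 < m → ¬ ∃ D : Set (E n), IsAdmissible D ∧ volume D = ENNReal.ofReal m ∧
        ∀ D' : Set (E n), IsAdmissible D' → volume D' = ENNReal.ofReal m →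
          disp β δ D ≤ disp β δ D' :=
  Pool.Agent.N266.TI.strong n hn

end Pool.Agent.Results.MP_ecdc1b_an.NoMinimiser
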